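import Pool.Agent.Helper46.RO.Base

/-!
# One step of pushing
-/

namespace Pool.Agent.Helper1.RO

open Pool.Agent.Helper46.RO

universe u

/-- The integral inner product. -/
def ip {n : ℕ} (u v : Fin n → ℤ) : ℤ := ∑ i, u i * v i

theorem nrm_add {n : ℕ} (u v : Fin n → ℤ) : nrm (u + v) = nrm u + 2 * ip u v + nrm v := by
  unfold nrm ip
  rw [Finset.mul_sum, ← Finset.sum_add_distrib, ← Finset.sum_add_distrib]
  refine Finset.sum_congr rfl fun i _ => ?_
  simp only [Pi.add_apply]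
  ring

theorem ip_add_left {n : ℕ} (u v w : Fin n → ℤ) : ip (u + v) w = ip u w + ip v w := by
  unfold ip
  rw [← Finset.sum_add_distrib]
  refine Finset.sum_congr rfl fun i _ => ?_
  simp only [Pi.add_apply]
  ring

theorem two_ip_le {n : ℕ} (u v : Fin n → ℤ) : 2 * ip u v ≤ nrm u + nrm v := by
  unfold nrm ip
  rw [Finset.mul_sum, ← Finset.sum_add_distrib]
  refine Finset.sum_le_sum fun i _ => ?_
  nlinarith [sq_nonneg (u i - v i)]

theorem nrm_nonneg {n : ℕ} (u : Fin n → ℤ) : 0 ≤ nrm u :=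
  Finset.sum_nonneg fun i _ => sq_nonneg _

theorem nrm_smul {n : ℕ} (u : Fin n → ℤ) (k : ℕ) : nrm (k • u) = (k : ℤ) ^ 2 * nrm u := by
  unfold nrm
  rw [Finset.mul_sum]
  refine Finset.sum_congr rfl fun i _ => ?_
  simp only [Pi.smul_apply, nsmul_eq_mul]
  ring

theorem ip_smul_right {n : ℕ} (u v : Fin n → ℤ) (k : ℕ) : ip u (k • v) = (k : ℤ) * ip u v := by
  unfold ip
  rw [Finset.mul_sum]
  refine Finset.sum_congr rfl fun i _ => ?_
  simp only [Pi.smul_apply, nsmul_eq_mul]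
  ring

section

variable {L : Type u} [Group L] {n : ℕ} {π : L → Fin n → ℤ}

theorem hom_one (hπ : IsHomZ π) : π 1 = 0 := by
  have h := hπ 1 1
  rw [mul_one] at h
  exact left_eq_add.1 h

theorem hom_pow (hπ : IsHomZ π) (a : L) (k : ℕ) : π (a ^ k) = k • π a := by
  induction k with
  | zero => simp [hom_one hπ]
  | succ k ih => rw [pow_succ, hπ, ih, add_smul, one_smul]

/-- A witness at the vertex `b`, in integral terms. -/
theorem witness (hπ : IsHomZ π) {X : Finset L} {𝒲 : Finset (L × ℕ × Finset L)} {δ : ℝ}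
    (hW : ∀ w : Fin n → ℝ, ∑ i, w i ^ 2 = 1 → ∃ W ∈ 𝒲, Good X π w δ W)
    {K : ℤ} (hK : 0 ≤ K) {C : ℤ} (hC : (C : ℝ) ≤ Real.sqrt ((K : ℝ) + 1) * δ) (b : L)
    (hb : nrm (π b) = K + 1) :
    ∃ W ∈ 𝒲, W.1 ∈ X ∧ ip (π b) (π W.1) ≤ -C ∧ ∀ x ∈ X,
      Conn X {h | h ∈ W.2.2 ∧ ip (π b) (π h) ≤ -C} (W.1 ^ W.2.1) (x * W.1 ^ W.2.1) := by
  have hK1 : (0 : ℝ) < (K : ℝ) + 1 := by
    have : (0 : ℝ) ≤ (K : ℝ) := by exact_mod_cast hK
    linarith
  have hr : 0 < Real.sqrt ((K : ℝ) + 1) := Real.sqrt_pos.2 hK1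
  have hr2 : Real.sqrt ((K : ℝ) + 1) ^ 2 = (K : ℝ) + 1 := Real.sq_sqrt hK1.le
  have key : ∀ v : L, chr π (fun i => -(π b i : ℝ) / Real.sqrt ((K : ℝ) + 1)) v =
      -(ip (π b) (π v) : ℝ) / Real.sqrt ((K : ℝ) + 1) := by
    intro v
    unfold chr ip
    push_cast
    rw [neg_div, Finset.sum_div, ← Finset.sum_neg_distrib]
    refine Finset.sum_congr rfl fun i _ => ?_
    ring
  have key2 : ∀ v : L, δ ≤ chr π (fun i => -(π b i : ℝ) / Real.sqrt ((K : ℝ) + 1)) v →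
      ip (π b) (π v) ≤ -C := by
    intro v hv
    rw [key v, le_div_iff₀ hr] at hv
    have : ((ip (π b) (π v) : ℤ) : ℝ) ≤ ((-C : ℤ) : ℝ) := by
      push_cast
      nlinarith
    exact_mod_cast this
  obtain ⟨W, hWm, h1, h2, h3⟩ := hW (fun i => -(π b i : ℝ) / Real.sqrt ((K : ℝ) + 1)) (by
    have : ∑ i, (-(π b i : ℝ) / Real.sqrt ((K : ℝ) + 1)) ^ 2 =
        ((nrm (π b) : ℤ) : ℝ) / Real.sqrt ((K : ℝ) + 1) ^ 2 := by
      unfold nrm
      push_cast
      rw [Finset.sum_div]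
      refine Finset.sum_congr rfl fun i _ => ?_
      rw [div_pow, neg_sq]
    rw [this, hr2, hb]
    push_cast
    exact div_self hK1.ne')
  refine ⟨W, hWm, h1, key2 _ h2, fun x hx => (h3 x hx).mono ?_⟩
  rintro k ⟨hk1, hk2⟩
  refine ⟨hk1, key2 _ ?_⟩
  have : (0 : ℝ) ≤ max 0 (chr π (fun i => -(π b i : ℝ) / Real.sqrt ((K : ℝ) + 1)) x) :=
    le_max_left _ _
  linarith

/-- Descending along a letter. -/
theorem descend (hπ : IsHomZ π) {M C : ℤ} (hM0 : 0 ≤ M) (hC : 2 * M + M ^ 2 + 1 ≤ 2 * C) {b a z : L}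
    (ha : nrm (π a) ≤ M) (hz : nrm (π z) ≤ M) (hbz : ip (π b) (π z) ≤ -C) (i : ℕ) (hi : 1 ≤ i)
    (hiM : (i : ℤ) ≤ M) : nrm (π (b * a * z ^ i)) ≤ nrm (π (b * a)) - 1 := by
  rw [hπ (b * a) (z ^ i), hom_pow hπ, nrm_add, ip_smul_right, nrm_smul]
  have h1 : ip (π (b * a)) (π z) ≤ -C + M := by
    rw [hπ, ip_add_left]
    have := two_ip_le (π a) (π z)
    linarith
  have hi' : (1 : ℤ) ≤ (i : ℤ) := by exact_mod_cast hi
  have h2 : (i : ℤ) * ip (π (b * a)) (π z) ≤ (i : ℤ) * (-C + M) :=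
    mul_le_mul_of_nonneg_left h1 (by linarith)
  have h3 : (i : ℤ) ^ 2 * nrm (π z) ≤ (i : ℤ) * (M * M) := by
    have e1 : (i : ℤ) ^ 2 * nrm (π z) ≤ (i : ℤ) ^ 2 * M := mul_le_mul_of_nonneg_left hz (sq_nonneg _)
    have e2 : (i : ℤ) ^ 2 * M ≤ (i : ℤ) * (M * M) := by
      have : (i : ℤ) * M * (i : ℤ) ≤ (i : ℤ) * M * M :=
        mul_le_mul_of_nonneg_left hiM (mul_nonneg (by linarith) hM0)
      nlinarith
    linarith
  have h4 : (i : ℤ) * (2 * M + M ^ 2 + 1) ≤ (i : ℤ) * (2 * C) :=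
    mul_le_mul_of_nonneg_left hC (by linarith)
  nlinarith

/-- The path `q, q z, ..., q z^m`. -/
theorem path_pow {X : Finset L} {P : Set L} {q z : L} (hz : z ∈ X) (i : ℕ) :
    ∀ j : ℕ, (∀ k, i ≤ k → k ≤ i + j → q * z ^ k ∈ P) → Conn X P (q * z ^ i) (q * z ^ (i + j)) := by
  intro j
  induction j with
  | zero => intro _; exact Conn.refl _
  | succ j ih =>
    intro h
    refine (ih fun k h1 h2 => h k h1 (by omega)).trans ?_
    have := Conn.step (X := X) (P := P) (g := q * z ^ (i + j)) hz (h _ (by omega) (by omega)) (by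
      have := h (i + (j + 1)) (by omega) le_rfl
      rwa [← add_assoc, pow_succ, ← mul_assoc] at this)
    rw [← add_assoc, pow_succ, ← mul_assoc]
    exact this

end

theorem P2 : GoalP2.{u} := by
  classical
  intro L _ X n π hX hπ ⟨𝒲, δ, hδ, hW⟩
  -- a bound for all letters, vertices and exponents
  obtain ⟨M, hM0, hMX, hMW⟩ : ∃ M : ℤ, 0 ≤ M ∧ (∀ x ∈ X, nrm (π x) ≤ M) ∧
      ∀ W ∈ 𝒲, (W.2.1 : ℤ) ≤ M ∧ ∀ v ∈ W.2.2, nrm (π v) ≤ M := by
    refine ⟨∑ x ∈ X, nrm (π x) + ∑ W ∈ 𝒲, ((W.2.1 : ℤ) + ∑ v ∈ W.2.2, nrm (π v)), ?_, ?_, ?_⟩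
    · refine add_nonneg (Finset.sum_nonneg fun _ _ => nrm_nonneg _) (Finset.sum_nonneg fun _ _ => ?_)
      exact add_nonneg (by positivity) (Finset.sum_nonneg fun _ _ => nrm_nonneg _)
    · intro x hx
      have h1 : nrm (π x) ≤ ∑ x ∈ X, nrm (π x) :=
        Finset.single_le_sum (f := fun x => nrm (π x)) (fun _ _ => nrm_nonneg _) hx
      have h2 : 0 ≤ ∑ W ∈ 𝒲, ((W.2.1 : ℤ) + ∑ v ∈ W.2.2, nrm (π v)) :=
        Finset.sum_nonneg fun _ _ =>
          add_nonneg (by positivity) (Finset.sum_nonneg fun _ _ => nrm_nonneg _)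
      linarith
    · intro W hWm
      have h0 : 0 ≤ ∑ x ∈ X, nrm (π x) := Finset.sum_nonneg fun _ _ => nrm_nonneg _
      have h1 : ((W.2.1 : ℤ) + ∑ v ∈ W.2.2, nrm (π v)) ≤
          ∑ W ∈ 𝒲, ((W.2.1 : ℤ) + ∑ v ∈ W.2.2, nrm (π v)) :=
        Finset.single_le_sum (f := fun W : L × ℕ × Finset L =>
          ((W.2.1 : ℤ) + ∑ v ∈ W.2.2, nrm (π v))) (fun _ _ =>
          add_nonneg (by positivity) (Finset.sum_nonneg fun _ _ => nrm_nonneg _)) hWm
      have h2 : 0 ≤ ∑ v ∈ W.2.2, nrm (π v) := Finset.sum_nonneg fun _ _ => nrm_nonneg _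
      have h3 : (0 : ℤ) ≤ (W.2.1 : ℤ) := by positivity
      refine ⟨by linarith, fun v hv => ?_⟩
      have h4 : nrm (π v) ≤ ∑ v ∈ W.2.2, nrm (π v) :=
        Finset.single_le_sum (f := fun v => nrm (π v)) (fun _ _ => nrm_nonneg _) hv
      linarith
  obtain ⟨C, hC0, hC⟩ : ∃ C : ℤ, 0 ≤ C ∧ 2 * M + M ^ 2 + 1 ≤ 2 * C :=
    ⟨2 * M + M ^ 2 + 1, by positivity, by nlinarith [sq_nonneg M]⟩
  refine ⟨max 0 ⌈((C : ℝ) / δ) ^ 2⌉, fun K hK => ?_⟩
  have hK0 : 0 ≤ K := le_trans (le_max_left _ _) hK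
  have hCK : (C : ℝ) ≤ Real.sqrt ((K : ℝ) + 1) * δ := by
    have h1 : ((C : ℝ) / δ) ^ 2 ≤ (K : ℝ) + 1 := by
      have e1 : ((C : ℝ) / δ) ^ 2 ≤ (⌈((C : ℝ) / δ) ^ 2⌉ : ℝ) := Int.le_ceil _
      have e2 : (⌈((C : ℝ) / δ) ^ 2⌉ : ℝ) ≤ (K : ℝ) := by
        exact_mod_cast le_trans (le_max_right _ _) hK
      linarith
    have h2 : (C : ℝ) / δ ≤ Real.sqrt ((K : ℝ) + 1) := Real.le_sqrt_of_sq_le h1
    rwa [div_le_iff₀ hδ] at h2
  -- choose the witnesses
  have wit := fun b (hb : nrm (π b) = K + 1) => witness hπ hW hK0 hCK b hb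
  choose! V hV1 hV2 hV3 hV4 using wit
  set P : Set L := {k | nrm (π k) ≤ K} with hP
  let down : L → L := fun k => if nrm (π k) ≤ K then k else k * (V k).1 ^ (V k).2.1
  -- (a)
  have factA : ∀ b, nrm (π b) = K + 1 → ∀ x ∈ X,
      Conn X P (b * (V b).1 ^ (V b).2.1) (b * x * (V b).1 ^ (V b).2.1) := by
    intro b hb x hx
    rw [mul_assoc b x]
    refine (hV4 b hb x hx).translate b ?_
    rintro v ⟨hv1, hv2⟩
    change nrm (π (b * v)) ≤ K
    rw [hπ, nrm_add, hb]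
    have := (hMW _ (hV1 b hb)).2 v hv1
    nlinarith [sq_nonneg M]
  -- (b)
  have factB : ∀ b, nrm (π b) = K + 1 → ∀ x ∈ X, nrm (π (b * x)) ≤ K + 1 → ∀ i : ℕ, 1 ≤ i →
      i ≤ (V b).2.1 → b * x * (V b).1 ^ i ∈ P := by
    intro b hb x hx hbx i hi1 hi2
    have h1 := descend hπ hM0 hC (hMX x hx) (hMX _ (hV2 b hb)) (hV3 b hb) i hi1
      (le_trans (by exact_mod_cast hi2) (hMW _ (hV1 b hb)).1)
    change nrm (π (b * x * (V b).1 ^ i)) ≤ K
    linarith
  have factB' : ∀ b, nrm (π b) = K + 1 → ∀ x ∈ X, nrm (π (b * x)) ≤ K →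
      Conn X P (b * x * (V b).1 ^ (V b).2.1) (b * x) := by
    intro b hb x hx hbx
    have h1 := path_pow (X := X) (P := P) (q := b * x) (z := (V b).1) (hV2 b hb) 0 (V b).2.1 (by
      intro k _ hk2
      rcases Nat.eq_zero_or_pos k with rfl | hk
      · rw [pow_zero, mul_one]; exact hbx
      · exact factB b hb x hx (by linarith) k hk (by omega))
    rw [pow_zero, mul_one, zero_add] at h1
    exact h1.symm hX
  have case2 : ∀ b, nrm (π b) = K + 1 → ∀ x ∈ X, nrm (π (b * x)) ≤ K →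
      Conn X P (b * (V b).1 ^ (V b).2.1) (b * x) := fun b hb x hx hbx =>
    (factA b hb x hx).trans (factB' b hb x hx hbx)
  have case4 : ∀ b, nrm (π b) = K + 1 → ∀ x ∈ X, nrm (π (b * x)) = K + 1 →
      Conn X P (b * (V b).1 ^ (V b).2.1) (b * x * (V (b * x)).1 ^ (V (b * x)).2.1) := by
    intro b hb x hx hbx
    by_cases hx1 : b * x = b
    · rw [hx1]; exact Conn.refl _
    have hm : 1 ≤ (V b).2.1 := by
      by_contra hm
      have hm0 : (V b).2.1 = 0 := by omega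
      have h1 := factA b hb x hx
      rw [hm0, pow_zero, mul_one, mul_one] at h1
      rcases Relation.ReflTransGen.cases_head h1 with h2 | ⟨c, h2, _⟩
      · exact hx1 h2.symm
      · have : nrm (π b) ≤ K := h2.1
        linarith
    -- the letter of `b` at `b x`
    have hbx0 : nrm (π (b * x * (V b).1)) ≤ K := by
      have := factB b hb x hx hbx.le 1 le_rfl hm
      rwa [pow_one] at this
    have s1 := factA b hb x hx
    have s2 : Conn X P (b * x * (V b).1 ^ (V b).2.1) (b * x * (V b).1) := by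
      have h1 := path_pow (X := X) (P := P) (q := b * x) (z := (V b).1) (hV2 b hb) 1
        ((V b).2.1 - 1) (by
        intro k hk1 hk2
        exact factB b hb x hx hbx.le k hk1 (by omega))
      rw [pow_one, Nat.add_sub_cancel' hm] at h1
      exact h1.symm hX
    have s3 := case2 (b * x) hbx (V b).1 (hV2 b hb) hbx0
    exact (s1.trans s2).trans (s3.symm hX)
  have edge : ∀ k x, x ∈ X → nrm (π k) ≤ K + 1 → nrm (π (k * x)) ≤ K + 1 →
      Conn X P (down k) (down (k * x)) := by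
    intro k x hx hk hkx
    by_cases h1 : nrm (π k) ≤ K
    · by_cases h2 : nrm (π (k * x)) ≤ K
      · simp only [down, if_pos h1, if_pos h2]
        exact Conn.step hx h1 h2
      · simp only [down, if_pos h1, if_neg h2]
        have h3 : nrm (π (k * x)) = K + 1 := le_antisymm hkx (by omega)
        have := case2 (k * x) h3 x⁻¹ (hX.1 x hx) (by rwa [mul_inv_cancel_right])
        rw [mul_inv_cancel_right] at this
        exact this.symm hX
    · have h3 : nrm (π k) = K + 1 := le_antisymm hk (by omega)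
      by_cases h2 : nrm (π (k * x)) ≤ K
      · simp only [down, if_neg h1, if_pos h2]
        exact case2 k h3 x hx h2
      · simp only [down, if_neg h1, if_neg h2]
        exact case4 k h3 x hx (le_antisymm hkx (by omega))
  intro g h hg hh hc
  have main : Conn X P (down g) (down h) := by
    have : ∀ h', Conn X {k | nrm (π k) ≤ K + 1} g h' → Conn X P (down g) (down h') := by
      intro h' hc'
      induction hc' with
      | refl => exact Conn.refl _
      | @tail b c _ hbc ih =>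
        refine ih.trans ?_
        have := edge b (b⁻¹ * c) hbc.2.2 hbc.1 (by rw [mul_inv_cancel_left]; exact hbc.2.1)
        rwa [mul_inv_cancel_left] at this
    exact this h hc
  simp only [down, if_pos hg, if_pos hh] at main
  exact main

end Pool.Agent.Helper1.RO
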